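import Pool.Agent.Helper36.CV.StmtsK

set_option autoImplicit false

namespace Pool.Agent.Helper96.CV

open Pool.Agent.Helper36.CV

noncomputable section

lemma inv_l {B : ℝ} {l : ℂ} (hB : 1 ≤ B) (hl : 100 * B ≤ ‖l‖) :
    0 < ‖l‖ ∧ l ≠ 0 ∧ 100 ≤ ‖l‖ ∧ B / ‖l‖ ^ 2 ≤ 1 / 100 ∧ B / ‖l‖ ≤ 1 / 100 := by
  have h0 : 0 < ‖l‖ := by linarith
  have h100 : 100 ≤ ‖l‖ := by linarith
  have h1 : B / ‖l‖ ≤ 1 / 100 := by
    rw [div_le_div_iff₀ h0 (by norm_num)]; linarith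
  refine ⟨h0, norm_pos_iff.mp h0, h100, ?_, h1⟩
  have : B / ‖l‖ ^ 2 = B / ‖l‖ * (1 / ‖l‖) := by field_simp
  rw [this]
  have h2 : 1 / ‖l‖ ≤ 1 := by
    rw [div_le_one h0]; linarith
  have h3 : 0 ≤ B / ‖l‖ := by positivity
  nlinarith

lemma norm_half_inv {l : ℂ} : ‖1 / (2 * l)‖ = 1 / 2 * (1 / ‖l‖) := by
  rw [norm_div, norm_mul]; simp; ring

lemma H_bd {B : ℝ} {l H : ℂ} (hB : 1 ≤ B) (hl : 100 * B ≤ ‖l‖)
    (h : ‖H - (1 + 1 / (2 * l))‖ ≤ B / ‖l‖ ^ 2) :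
    1 / 2 ≤ ‖H‖ ∧ ‖H - 1‖ ≤ 1 / ‖l‖ := by
  obtain ⟨h0, hl0, h100, h2, h1⟩ := inv_l hB hl
  have e1 : ‖H - 1‖ ≤ B / ‖l‖ ^ 2 + 1 / 2 * (1 / ‖l‖) := by
    have : H - 1 = (H - (1 + 1 / (2 * l))) + 1 / (2 * l) := by ring
    rw [this]
    refine (norm_add_le _ _).trans ?_
    rw [norm_half_inv]
    linarith
  have e2 : B / ‖l‖ ^ 2 = B / ‖l‖ * (1 / ‖l‖) := by field_simp
  have e3 : 0 < 1 / ‖l‖ := by positivity
  have e4 : ‖H - 1‖ ≤ 1 / ‖l‖ := by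
    rw [e2] at e1
    nlinarith
  refine ⟨?_, e4⟩
  have e5 : (1 : ℝ) / ‖l‖ ≤ 1 / 100 := one_div_le_one_div_of_le (by norm_num) h100
  have e6 : ‖(1 : ℂ)‖ ≤ ‖H‖ + ‖H - 1‖ := by
    have : (1 : ℂ) = H - (H - 1) := by ring
    calc ‖(1 : ℂ)‖ = ‖H - (H - 1)‖ := by rw [← this]
      _ ≤ _ := norm_sub_le _ _
  rw [norm_one] at e6
  linarith

/-- ratio estimate: `G / H * q` against `v` -/
lemma ratio_bd {B A : ℝ} {l H G q v : ℂ} (hB : 1 ≤ B) (hl : 100 * B ≤ ‖l‖)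
    (hH : ‖H - (1 + 1 / (2 * l))‖ ≤ B / ‖l‖ ^ 2)
    (hG : ‖G - (1 + 1 / (2 * l))‖ ≤ B / ‖l‖ ^ 2)
    (hq : ‖q - v‖ ≤ B / ‖l‖ ^ 3) (hv : ‖v‖ ≤ 1 / ‖l‖) (hA : 9 * B ≤ A) :
    ‖G * q / H - v‖ ≤ A / ‖l‖ ^ 3 := by
  obtain ⟨h0, hl0, h100, h2, h1⟩ := inv_l hB hl
  obtain ⟨hH1, -⟩ := H_bd hB hl hH
  have hHne : H ≠ 0 := by
    intro h; rw [h, norm_zero] at hH1; linarith
  have e1 : ‖G - H‖ ≤ 2 * (B / ‖l‖ ^ 2) := by
    have : G - H = (G - (1 + 1 / (2 * l))) - (H - (1 + 1 / (2 * l))) := by ring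
    rw [this]
    refine (norm_sub_le _ _).trans ?_
    linarith
  have e2 : ‖q‖ ≤ 2 / ‖l‖ := by
    have : q = (q - v) + v := by ring
    rw [this]
    refine (norm_add_le _ _).trans ?_
    have h3 : B / ‖l‖ ^ 3 ≤ 1 / ‖l‖ := by
      rw [div_le_div_iff₀ (by positivity) h0]
      have : B * ‖l‖ ≤ ‖l‖ * ‖l‖ ^ 2 := by
        have : B ≤ ‖l‖ ^ 2 := by nlinarith
        nlinarith
      nlinarith
    have : (2 : ℝ) / ‖l‖ = 1 / ‖l‖ + 1 / ‖l‖ := by ring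
    rw [this]; linarith
  have e3 : G * q / H - v = (G - H) * q / H + (q - v) := by
    field_simp; ring
  rw [e3]
  refine (norm_add_le _ _).trans ?_
  have e4 : ‖(G - H) * q / H‖ ≤ 8 * B / ‖l‖ ^ 3 := by
    rw [norm_div, norm_mul, div_le_iff₀ (by linarith)]
    have h5 : ‖G - H‖ * ‖q‖ ≤ 2 * (B / ‖l‖ ^ 2) * (2 / ‖l‖) :=
      mul_le_mul e1 e2 (norm_nonneg _) (by positivity)
    have h6 : 2 * (B / ‖l‖ ^ 2) * (2 / ‖l‖) = 8 * B / ‖l‖ ^ 3 * (1 / 2) := by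
      field_simp; ring
    rw [h6] at h5
    refine h5.trans ?_
    exact mul_le_mul_of_nonneg_left hH1 (by positivity)
  have e5 : 8 * B / ‖l‖ ^ 3 + B / ‖l‖ ^ 3 = 9 * B / ‖l‖ ^ 3 := by ring
  have e6 : 9 * B / ‖l‖ ^ 3 ≤ A / ‖l‖ ^ 3 := by
    exact div_le_div_of_nonneg_right hA (by positivity)
  linarith

/-- conclusion of block K8 for all words (as a predicate) -/
def Fm (c2 L0 c c' : ℝ) (T : Tree c L0) (U : Ends c c' L0 T) : Prop := ∀ l ∈ Om2 L0, ∀ w : Wd,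
  ‖(T.EE w l (U.zh w l) - T.EE w l (U.zl w l)) / (T.oo w * deriv (T.EE w l) 0) - (1 + 1 / (2 * l))‖
      ≤ c2 / ‖l‖ ^ 2 ∧
  ‖((T.EE w l (U.zh w l) + T.EE w l (U.zl w l)) / 2 - T.EE w l 0) / (T.oo w * deriv (T.EE w l) 0)
      - ty w / (8 * l)‖ ≤ c2 / ‖l‖ ^ 2 ∧
  ‖T.oo (ch 0 w) * deriv (T.EE (ch 0 w) l) 0 / (T.oo w * deriv (T.EE w l) 0)
      - 1 / (2 * l) * (1 + ty w / l)‖ ≤ c2 / ‖l‖ ^ 3 ∧
  ‖T.oo (ch 2 w) * deriv (T.EE (ch 2 w) l) 0 / (T.oo w * deriv (T.EE w l) 0)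
      - 1 / (2 * l) * (1 - ty w / l)‖ ≤ c2 / ‖l‖ ^ 3 ∧
  ‖T.oo (ch 1 w) * deriv (T.EE (ch 1 w) l) 0 / (T.oo w * deriv (T.EE w l) 0)
      - 1 / l ^ 2‖ ≤ c2 / ‖l‖ ^ 3 ∧
  ‖(T.EE (ch 1 w) l 0 - T.EE w l 0) / (T.oo w * deriv (T.EE w l) 0) - ty w / (2 * l)‖ ≤ c2 / ‖l‖ ^ 2

variable {c c' L0 : ℝ} {T : Tree c L0} (U : Ends c c' L0 T)

def LO (w : Wd) (l : ℂ) : ℂ := T.EE w l (U.zl w l)

def HI (w : Wd) (l : ℂ) : ℂ := T.EE w l (U.zh w l)

lemma LO_ch0 (w : Wd) {l : ℂ} (hl : l ∈ Om2 L0) : LO U (ch 0 w) l = LO U w l := by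
  unfold LO
  rw [T.E0 0 w]
  show T.EE w l (T.zz 0 w l (U.zl (ch 0 w) l)) = _
  rw [← U.el w l hl]

lemma HI_ch2 (w : Wd) {l : ℂ} (hl : l ∈ Om2 L0) : HI U (ch 2 w) l = HI U w l := by
  unfold HI
  rw [T.E0 2 w]
  show T.EE w l (T.zz 2 w l (U.zh (ch 2 w) l)) = _
  rw [← U.eh w l hl]

lemma Om2_norm {l : ℂ} (hl : l ∈ Om2 L0) : L0 < ‖l‖ := hl.1

lemma real_mem_Om2 (hL0 : 0 ≤ L0) {l : ℝ} (hl : L0 < l) : (l : ℂ) ∈ Om2 L0 := by
  have h0 : 0 < l := lt_of_le_of_lt hL0 hl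
  constructor
  · rw [Complex.norm_real, Real.norm_eq_abs, abs_of_pos h0]; exact hl
  · rw [Complex.norm_real, Real.norm_eq_abs, abs_of_pos h0, Complex.ofReal_re]; linarith

omit U in
lemma ty_cases (w : Wd) : ty w = -1 ∨ ty w = 0 ∨ ty w = 1 := by
  obtain ⟨r, L⟩ := w
  cases L with
  | nil =>
    show rt r = -1 ∨ rt r = 0 ∨ rt r = 1
    fin_cases r <;> simp [rt]
  | cons i L =>
    show ((i : ℕ) : ℝ) - 1 = -1 ∨ ((i : ℕ) : ℝ) - 1 = 0 ∨ ((i : ℕ) : ℝ) - 1 = 1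
    fin_cases i <;> norm_num

omit U in
lemma ty_abs (w : Wd) : ‖(ty w : ℂ)‖ ≤ 1 := by
  rw [Complex.norm_real, Real.norm_eq_abs]
  rcases ty_cases w with h | h | h <;> rw [h] <;> norm_num

section

variable {c2 : ℝ} (hF : Fm c2 L0 c c' T U) (hB : 1 ≤ c2) (hL : 100 * c2 ≤ L0)

include hF hB hL

omit hB hL in
lemma H_est (w : Wd) {l : ℂ} (hl : l ∈ Om2 L0) :
    ‖(HI U w l - LO U w l) / (T.oo w * deriv (T.EE w l) 0) - (1 + 1 / (2 * l))‖ ≤ c2 / ‖l‖ ^ 2 :=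
  (hF l hl w).1

lemma D_ne (w : Wd) {l : ℂ} (hl : l ∈ Om2 L0) :
    (T.oo w * deriv (T.EE w l) 0 : ℂ) ≠ 0 ∧ HI U w l - LO U w l ≠ 0 := by
  have hn : 100 * c2 ≤ ‖l‖ := hL.trans (Om2_norm hl).le
  have h := (H_bd hB hn (H_est U hF w hl)).1
  constructor
  · intro h0
    rw [h0, div_zero, norm_zero] at h
    linarith
  · intro h0
    rw [h0, zero_div, norm_zero] at h
    linarith

omit hF in
lemma v0_bd (w : Wd) (s : ℝ) (hs : s = 1 ∨ s = -1) {l : ℂ} (hl : l ∈ Om2 L0) :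
    ‖(1 / (2 * l) * (1 + s * ty w / l) : ℂ)‖ ≤ 1 / ‖l‖ := by
  have hn : 100 * c2 ≤ ‖l‖ := hL.trans (Om2_norm hl).le
  obtain ⟨h0, hl0, h100, h2, h1⟩ := inv_l hB hn
  rw [norm_mul, norm_half_inv]
  have h3 : ‖(1 + s * ty w / l : ℂ)‖ ≤ 2 := by
    refine (norm_add_le _ _).trans ?_
    rw [norm_one, norm_div, norm_mul]
    have h4 : ‖(s : ℂ)‖ = 1 := by
      rw [Complex.norm_real, Real.norm_eq_abs]
      rcases hs with h | h <;> rw [h] <;> norm_num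
    rw [h4, one_mul]
    have h5 : ‖(ty w : ℂ)‖ / ‖l‖ ≤ 1 := by
      rw [div_le_one h0]
      exact (ty_abs w).trans (by linarith)
    linarith
  have h6 : 0 < 1 / ‖l‖ := by positivity
  nlinarith

/-- child length against parent length -/
lemma len_ratio {w w' : Wd} {v : ℂ} {A : ℝ} {l : ℂ} (hl : l ∈ Om2 L0)
    (hq : ‖(T.oo w' * deriv (T.EE w' l) 0 : ℂ) / (T.oo w * deriv (T.EE w l) 0) - v‖ ≤ c2 / ‖l‖ ^ 3)
    (hv : ‖v‖ ≤ 1 / ‖l‖) (hA : 9 * c2 ≤ A) :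
    ‖(HI U w' l - LO U w' l) / (HI U w l - LO U w l) - v‖ ≤ A / ‖l‖ ^ 3 := by
  have hn : 100 * c2 ≤ ‖l‖ := hL.trans (Om2_norm hl).le
  have h := ratio_bd hB hn (H_est U hF w hl) (H_est U hF w' hl) hq hv hA
  obtain ⟨hD, hH⟩ := D_ne U hF hB hL w hl
  obtain ⟨hD', hH'⟩ := D_ne U hF hB hL w' hl
  have e : (HI U w' l - LO U w' l) / (T.oo w' * deriv (T.EE w' l) 0) *
      ((T.oo w' * deriv (T.EE w' l) 0) / (T.oo w * deriv (T.EE w l) 0)) /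
      ((HI U w l - LO U w l) / (T.oo w * deriv (T.EE w l) 0)) =
      (HI U w' l - LO U w' l) / (HI U w l - LO U w l) := by
    generalize (T.oo w' * deriv (T.EE w' l) 0 : ℂ) = D' at *
    generalize (T.oo w * deriv (T.EE w l) 0 : ℂ) = D at *
    generalize HI U w' l - LO U w' l = h' at *
    generalize HI U w l - LO U w l = h at *
    field_simp
  rw [e] at h
  exact h

lemma ratio0 (w : Wd) {l : ℂ} (hl : l ∈ Om2 L0) :
    ‖(HI U (ch 0 w) l - LO U (ch 0 w) l) / (HI U w l - LO U w l)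
      - 1 / (2 * l) * (1 + ty w / l)‖ ≤ 9 * c2 / ‖l‖ ^ 3 := by
  have hv := v0_bd hB hL w 1 (Or.inl rfl) hl
  rw [Complex.ofReal_one, one_mul] at hv
  exact len_ratio U hF hB hL hl (hF l hl w).2.2.1 hv le_rfl

lemma ratio2 (w : Wd) {l : ℂ} (hl : l ∈ Om2 L0) :
    ‖(HI U (ch 2 w) l - LO U (ch 2 w) l) / (HI U w l - LO U w l)
      - 1 / (2 * l) * (1 - ty w / l)‖ ≤ 9 * c2 / ‖l‖ ^ 3 := by
  have hv := v0_bd hB hL w (-1) (Or.inr rfl) hl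
  have e : (1 + ((-1 : ℝ) : ℂ) * ty w / l : ℂ) = 1 - ty w / l := by
    push_cast; ring
  rw [e] at hv
  exact len_ratio U hF hB hL hl (hF l hl w).2.2.2.1 hv le_rfl

lemma ratio1 (w : Wd) {l : ℂ} (hl : l ∈ Om2 L0) :
    ‖(HI U (ch 1 w) l - LO U (ch 1 w) l) / (HI U w l - LO U w l)
      - 1 / l ^ 2‖ ≤ 9 * c2 / ‖l‖ ^ 3 := by
  have hn : 100 * c2 ≤ ‖l‖ := hL.trans (Om2_norm hl).le
  obtain ⟨h0, hl0, h100, h2, h1⟩ := inv_l hB hn
  have hv : ‖(1 / l ^ 2 : ℂ)‖ ≤ 1 / ‖l‖ := by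
    rw [norm_div, norm_one, norm_pow]
    apply one_div_le_one_div_of_le h0
    nlinarith
  exact len_ratio U hF hB hL hl (hF l hl w).2.2.2.2.1 hv le_rfl

lemma centre (w : Wd) {l : ℂ} (hl : l ∈ Om2 L0) :
    ‖((HI U (ch 1 w) l + LO U (ch 1 w) l) / 2 - (HI U w l + LO U w l) / 2
      - 3 / 4 * ty w * (1 / (2 * l)) * (HI U w l - LO U w l))‖
      ≤ 8 * c2 / ‖l‖ ^ 2 * ‖HI U w l - LO U w l‖ := by
  have hn : 100 * c2 ≤ ‖l‖ := hL.trans (Om2_norm hl).le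
  obtain ⟨h0, hl0, h100, h2, h1⟩ := inv_l hB hn
  obtain ⟨hD, hH⟩ := D_ne U hF hB hL w hl
  obtain ⟨hD', hH'⟩ := D_ne U hF hB hL (ch 1 w) hl
  obtain ⟨f1, f2, f3, f4, f5, f6⟩ := hF l hl w
  obtain ⟨g1, g2, g3, g4, g5, g6⟩ := hF l hl (ch 1 w)
  have hH1 := H_bd hB hn (H_est U hF w hl)
  have ht1 : (ty (ch 1 w) : ℂ) = 0 := by
    have : ty (ch 1 w) = 0 := by
      show (((1 : Fin 3) : ℕ) : ℝ) - 1 = 0
      norm_num
    rw [this]; simp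
  rw [ht1, zero_div, sub_zero] at g2
  have ht := ty_abs w
  change ‖(((HI U w l) + (LO U w l)) / 2 - T.EE w l 0) / (T.oo w * deriv (T.EE w l) 0)
      - ty w / (8 * l)‖ ≤ c2 / ‖l‖ ^ 2 at f2
  change ‖(((HI U (ch 1 w) l) + (LO U (ch 1 w) l)) / 2 - T.EE (ch 1 w) l 0) /
      (T.oo (ch 1 w) * deriv (T.EE (ch 1 w) l) 0)‖ ≤ c2 / ‖l‖ ^ 2 at g2
  generalize (T.oo (ch 1 w) * deriv (T.EE (ch 1 w) l) 0 : ℂ) = D' at *
  generalize (T.oo w * deriv (T.EE w l) 0 : ℂ) = D at *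
  generalize HI U w l = hi at *
  generalize LO U w l = lo at *
  generalize HI U (ch 1 w) l = hi' at *
  generalize LO U (ch 1 w) l = lo' at *
  generalize T.EE w l 0 = E0 at *
  generalize T.EE (ch 1 w) l 0 = E1 at *
  generalize (ty w : ℂ) = t at *
  -- names
  set α : ℂ := ((hi' + lo') / 2 - E1) / D' with hα
  set β : ℂ := (E1 - E0) / D with hβ
  set γ : ℂ := ((hi + lo) / 2 - E0) / D with hγ
  set q : ℂ := D' / D with hq
  set H : ℂ := (hi - lo) / D with hHd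
  have key : (hi' + lo') / 2 - (hi + lo) / 2 - 3 / 4 * t * (1 / (2 * l)) * (hi - lo) =
      D * (q * α + (β - t / (2 * l)) - (γ - t / (8 * l)) - 3 * t / (8 * l) * (H - 1)) := by
    rw [hα, hβ, hγ, hq, hHd]
    field_simp
    ring
  have hq2 : ‖q‖ ≤ 1 := by
    have : q = (q - 1 / l ^ 2) + 1 / l ^ 2 := by ring
    rw [this]
    refine (norm_add_le _ _).trans ?_
    have a1 : ‖(1 / l ^ 2 : ℂ)‖ ≤ 1 / 2 := by
      rw [norm_div, norm_one, norm_pow]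
      apply one_div_le_one_div_of_le (by norm_num)
      nlinarith
    have a2 : c2 / ‖l‖ ^ 3 ≤ 1 / 2 := by
      have : c2 / ‖l‖ ^ 3 = c2 / ‖l‖ ^ 2 * (1 / ‖l‖) := by field_simp
      rw [this]
      have a3 : 1 / ‖l‖ ≤ 1 := by rw [div_le_one h0]; linarith
      have a4 : 0 ≤ c2 / ‖l‖ ^ 2 := by positivity
      nlinarith
    linarith
  have b1 : ‖q * α‖ ≤ c2 / ‖l‖ ^ 2 := by
    rw [norm_mul]
    have := norm_nonneg α
    have := norm_nonneg q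
    nlinarith
  have b2 : ‖3 * t / (8 * l) * (H - 1)‖ ≤ c2 / ‖l‖ ^ 2 := by
    rw [norm_mul, norm_div, norm_mul, norm_mul]
    have a1 : ‖(3 : ℂ)‖ = 3 := by norm_num
    have a2 : ‖(8 : ℂ)‖ = 8 := by norm_num
    rw [a1, a2]
    have a3 : 3 * ‖t‖ / (8 * ‖l‖) ≤ 1 / ‖l‖ := by
      rw [div_le_div_iff₀ (by positivity) h0]
      nlinarith
    have a4 : 3 * ‖t‖ / (8 * ‖l‖) * ‖H - 1‖ ≤ 1 / ‖l‖ * (1 / ‖l‖) :=
      mul_le_mul a3 hH1.2 (norm_nonneg _) (by positivity)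
    refine a4.trans ?_
    rw [div_mul_div_comm, div_le_div_iff₀ (by positivity) (by positivity)]
    nlinarith [sq_nonneg ‖l‖]
  have b3 : ‖q * α + (β - t / (2 * l)) - (γ - t / (8 * l)) - 3 * t / (8 * l) * (H - 1)‖ ≤
      4 * (c2 / ‖l‖ ^ 2) := by
    refine (norm_sub_le _ _).trans ?_
    have := (norm_sub_le (q * α + (β - t / (2 * l))) (γ - t / (8 * l)))
    have := (norm_add_le (q * α) (β - t / (2 * l)))
    linarith
  have b4 : ‖D‖ ≤ 2 * ‖hi - lo‖ := by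
    have : hi - lo = H * D := by rw [hHd]; field_simp
    rw [this, norm_mul]
    have := norm_nonneg D
    nlinarith [hH1.1]
  rw [key, norm_mul]
  calc ‖D‖ * ‖q * α + (β - t / (2 * l)) - (γ - t / (8 * l)) - 3 * t / (8 * l) * (H - 1)‖
      ≤ (2 * ‖hi - lo‖) * (4 * (c2 / ‖l‖ ^ 2)) := mul_le_mul b4 b3 (norm_nonneg _) (by positivity)
    _ = 8 * c2 / ‖l‖ ^ 2 * ‖hi - lo‖ := by ring

end

/-- conclusion of block K7 at one real coupling -/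
def Re7 (l : ℝ) : Prop := ∀ w : Wd, ∃ a b : ℝ, (a : ℂ) = LO U w l ∧ (b : ℂ) = HI U w l ∧ a < b ∧
    a ∈ Cs l ∧ b ∈ Cs l ∧
    ∀ (x z : ℝ), x ∈ Cs l → |z| ≤ 1 → (x : ℂ) = T.EE w l z → a ≤ x ∧ x ≤ b

variable {U}

lemma Re7.facts {l : ℝ} (h : Re7 U l) (w : Wd) :
    LO U w l = ((LO U w l).re : ℂ) ∧ HI U w l = ((HI U w l).re : ℂ) ∧
    (LO U w l).re < (HI U w l).re ∧ (LO U w l).re ∈ Cs l ∧ (HI U w l).re ∈ Cs l ∧
    ∀ (x z : ℝ), x ∈ Cs l → |z| ≤ 1 → (x : ℂ) = T.EE w l z →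
      (LO U w l).re ≤ x ∧ x ≤ (HI U w l).re := by
  obtain ⟨a, b, ha, hb, h1, h2, h3, h4⟩ := h w
  rw [← ha, ← hb, Complex.ofReal_re, Complex.ofReal_re]
  exact ⟨rfl, rfl, h1, h2, h3, h4⟩

/-- from complex ratio to real lengths -/
lemma real_ratio {l : ℝ} (hl : 0 < l) (h : Re7 U l) {w w' : Wd} {v A : ℝ} {v' : ℂ} (hv' : v' = (v : ℂ))
    (hr : ‖(HI U w' l - LO U w' l) / (HI U w l - LO U w l) - v'‖ ≤ A / ‖(l : ℂ)‖ ^ 3) :
    |((HI U w' l).re - (LO U w' l).re) - v * ((HI U w l).re - (LO U w l).re)| ≤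
      A / l ^ 3 * ((HI U w l).re - (LO U w l).re) := by
  obtain ⟨a1, a2, a3, -⟩ := h.facts w
  obtain ⟨b1, b2, b3, -⟩ := h.facts w'
  rw [a1, a2, b1, b2, hv', Complex.norm_real, Real.norm_eq_abs, abs_of_pos hl] at hr
  generalize (HI U w l).re = hi at *
  generalize (LO U w l).re = lo at *
  generalize (HI U w' l).re = hi' at *
  generalize (LO U w' l).re = lo' at *
  have e : (((hi' : ℂ) - lo') / ((hi : ℂ) - lo) - v) = (((hi' - lo') / (hi - lo) - v : ℝ) : ℂ) := by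
    push_cast; ring
  rw [e, Complex.norm_real, Real.norm_eq_abs] at hr
  have hp : 0 < hi - lo := by linarith
  have e2 : (hi' - lo') - v * (hi - lo) = ((hi' - lo') / (hi - lo) - v) * (hi - lo) := by
    field_simp
  rw [e2, abs_mul, abs_of_pos hp]
  exact mul_le_mul_of_nonneg_right hr hp.le

lemma ivt {l : ℝ} (hL0 : 0 ≤ L0) (hl : L0 < l) (w : Wd) (x : ℝ)
    (h1 : (LO U w l).re ≤ x) (h2 : x ≤ (HI U w l).re) :
    ∃ z : ℝ, |z| ≤ 1 ∧ (x : ℂ) = T.EE w l z := by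
  have hO : (l : ℂ) ∈ Om2 L0 := real_mem_Om2 hL0 hl
  have hD : ∀ z : ℝ, |z| < 2 → ((l : ℂ), (z : ℂ)) ∈ Dom L0 := by
    intro z hz
    refine ⟨hO, ?_⟩
    show ‖(z : ℂ)‖ < 2
    rw [Complex.norm_real, Real.norm_eq_abs]; exact hz
  have hzl : U.zl w l = ((U.zl w l).re : ℂ) := by
    apply Complex.ext
    · simp
    · simp [U.re_l w l hO]
  have hzh : U.zh w l = ((U.zh w l).re : ℂ) := by
    apply Complex.ext
    · simp
    · simp [U.re_h w l hO]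
  have nl : |(U.zl w l).re| ≤ 3 / 4 := (Complex.abs_re_le_norm _).trans (U.nl w l hO)
  have nh : |(U.zh w l).re| ≤ 3 / 4 := (Complex.abs_re_le_norm _).trans (U.nh w l hO)
  set p : ℝ := (U.zl w l).re
  set q : ℝ := (U.zh w l).re
  have hsub : ∀ z ∈ Set.uIcc p q, |z| ≤ 3 / 4 := by
    intro z hz
    rw [Set.mem_uIcc] at hz
    rw [abs_le] at nl nh ⊢
    rcases hz with hz | hz <;> constructor <;> linarith
  have hcont : ContinuousOn (fun z : ℝ => (T.EE w l z).re) (Set.uIcc p q) := by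
    have h3 : ContinuousOn (fun pr : ℂ × ℂ => T.EE w pr.1 pr.2) (Dom L0) := ((T.sta w).an_E).continuousOn
    have h4 : ContinuousOn (fun z : ℝ => ((l : ℂ), (z : ℂ))) (Set.uIcc p q) := by
      apply Continuous.continuousOn
      fun_prop
    have h5 : Set.MapsTo (fun z : ℝ => ((l : ℂ), (z : ℂ))) (Set.uIcc p q) (Dom L0) := by
      intro z hz
      exact hD z (lt_of_le_of_lt (hsub z hz) (by norm_num))
    have h6 := h3.comp h4 h5
    exact Complex.continuous_re.comp_continuousOn h6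
  have hx : x ∈ Set.uIcc ((T.EE w l p).re) ((T.EE w l q).re) := by
    have e1 : (T.EE w l p).re = (LO U w l).re := by
      show (T.EE w l p).re = (T.EE w l (U.zl w l)).re
      rw [hzl]
    have e2 : (T.EE w l q).re = (HI U w l).re := by
      show (T.EE w l q).re = (T.EE w l (U.zh w l)).re
      rw [hzh]
    rw [e1, e2, Set.mem_uIcc]
    left; exact ⟨h1, h2⟩
  obtain ⟨z, hz, hzx⟩ := intermediate_value_uIcc hcont hx
  have hz1 := hsub z hz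
  refine ⟨z, hz1.trans (by norm_num), ?_⟩
  apply Complex.ext
  · rw [Complex.ofReal_re]; exact hzx.symm
  · rw [Complex.ofReal_im]
    exact ((T.sta w).re_E l z (hD z (lt_of_le_of_lt hz1 (by norm_num)))).symm

/-- child bands: conclusion of block K5 at one real coupling -/
def Re5 (T : Tree c L0) (l : ℝ) : Prop := ∀ x : ℝ, x ∈ Cs l →
  (∃ (r : Fin 4) (z : ℝ), |z| ≤ 1 ∧ (x : ℂ) = T.EE (r, []) l z) ∧
  (∀ (w : Wd) (z : ℝ), |z| ≤ 1 → (x : ℂ) = T.EE w l z →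
    ∃ (i : Fin 3) (z' : ℝ), |z'| ≤ 1 ∧ (z : ℂ) = T.zz i w l z')

lemma cover {l : ℝ} (hL0 : 0 ≤ L0) (hl : L0 < l) (h5 : Re5 T l) (h7 : Re7 U l) (w : Wd) (x : ℝ)
    (hx : x ∈ Cs l) (h1 : (LO U w l).re ≤ x) (h2 : x ≤ (HI U w l).re) :
    ∃ i : Fin 3, (LO U (ch i w) l).re ≤ x ∧ x ≤ (HI U (ch i w) l).re := by
  obtain ⟨z, hz, hxz⟩ := ivt hL0 hl w x h1 h2
  obtain ⟨i, z', hz', e⟩ := (h5 x hx).2 w z hz hxz
  refine ⟨i, (h7.facts (ch i w)).2.2.2.2.2 x z' hx hz' ?_⟩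
  rw [hxz, T.E0 i w]
  show _ = T.EE w l (T.zz i w l z')
  rw [e]

lemma cover_root {l : ℝ} (h5 : Re5 T l) (h7 : Re7 U l) (x : ℝ) (hx : x ∈ Cs l) :
    ∃ r : Fin 4, (LO U (r, []) l).re ≤ x ∧ x ≤ (HI U (r, []) l).re := by
  obtain ⟨r, z, hz, hxz⟩ := (h5 x hx).1
  exact ⟨r, (h7.facts (r, [])).2.2.2.2.2 x z hx hz hxz⟩

lemma fine {l : ℝ} (hL0 : 0 ≤ L0) (hl : L0 < l) (h5 : Re5 T l) (h7 : Re7 U l)
    (hsh : ∀ (w : Wd) (i : Fin 3), (HI U (ch i w) l).re - (LO U (ch i w) l).re ≤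
      1 / 2 * ((HI U w l).re - (LO U w l).re)) (x : ℝ) (hx : x ∈ Cs l) (δ : ℝ) (hδ : 0 < δ) :
    ∃ w : Wd, (LO U w l).re ≤ x ∧ x ≤ (HI U w l).re ∧ (HI U w l).re - (LO U w l).re < δ := by
  obtain ⟨r, hr1, hr2⟩ := cover_root h5 h7 x hx
  set M : ℝ := (HI U (r, []) l).re - (LO U (r, []) l).re with hM
  have key : ∀ n : ℕ, ∃ w : Wd, (LO U w l).re ≤ x ∧ x ≤ (HI U w l).re ∧
      (HI U w l).re - (LO U w l).re ≤ (1 / 2) ^ n * M := by
    intro n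
    induction n with
    | zero => exact ⟨(r, []), hr1, hr2, by rw [pow_zero, one_mul]⟩
    | succ n ih =>
      obtain ⟨w, h1, h2, h3⟩ := ih
      obtain ⟨i, h4, h6⟩ := cover hL0 hl h5 h7 w x hx h1 h2
      refine ⟨ch i w, h4, h6, (hsh w i).trans ?_⟩
      rw [pow_succ]
      have : (1 / 2 : ℝ) ^ n * (1 / 2) * M = 1 / 2 * ((1 / 2) ^ n * M) := by ring
      rw [this]
      linarith
  have hMp : 0 < M := by
    have := (h7.facts (r, [])).2.2.1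
    rw [hM]; linarith
  obtain ⟨n, hn⟩ := exists_pow_lt_of_lt_one (show 0 < δ / M by positivity) (show (1 / 2 : ℝ) < 1 by norm_num)
  obtain ⟨w, h1, h2, h3⟩ := key n
  refine ⟨w, h1, h2, lt_of_le_of_lt h3 ?_⟩
  rwa [lt_div_iff₀ hMp] at hn

lemma an_LO (U : Ends c c' L0 T) (w : Wd) : DifferentiableOn ℂ (LO U w) (Om2 L0) := by
  have h1 : DifferentiableOn ℂ (fun l : ℂ => (l, U.zl w l)) (Om2 L0) :=
    differentiableOn_id.prodMk (U.an_l w)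
  have h2 : Set.MapsTo (fun l : ℂ => (l, U.zl w l)) (Om2 L0) (Dom L0) := by
    intro l hl
    exact ⟨hl, lt_of_le_of_lt (U.nl w l hl) (by norm_num)⟩
  exact ((T.sta w).an_E).comp h1 h2

lemma an_HI (U : Ends c c' L0 T) (w : Wd) : DifferentiableOn ℂ (HI U w) (Om2 L0) := by
  have h1 : DifferentiableOn ℂ (fun l : ℂ => (l, U.zh w l)) (Om2 L0) :=
    differentiableOn_id.prodMk (U.an_h w)
  have h2 : Set.MapsTo (fun l : ℂ => (l, U.zh w l)) (Om2 L0) (Dom L0) := by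
    intro l hl
    exact ⟨hl, lt_of_le_of_lt (U.nh w l hl) (by norm_num)⟩
  exact ((T.sta w).an_E).comp h1 h2

lemma ratio_fin {c2 Cc : ℝ} (hB : 1 ≤ c2) (hC : 19 * c2 ≤ Cc) {l t ρ : ℂ} (hl : 100 * c2 ≤ ‖l‖)
    (ht : ‖t‖ ≤ 1) (h : ‖ρ - 1 / (2 * l) * (1 + t / l)‖ ≤ 9 * c2 / ‖l‖ ^ 3) :
    ‖ρ * (2 * l) - 1‖ ≤ Cc / ‖l‖ := by
  obtain ⟨h0, hl0, h100, h2, h1⟩ := inv_l hB hl
  have e : ρ * (2 * l) - 1 = (ρ - 1 / (2 * l) * (1 + t / l)) * (2 * l) + t / l := by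
    field_simp; ring
  rw [e]
  refine (norm_add_le _ _).trans ?_
  rw [norm_mul, norm_mul, norm_div]
  have a1 : ‖(2 : ℂ)‖ = 2 := by norm_num
  rw [a1]
  have a2 : ‖ρ - 1 / (2 * l) * (1 + t / l)‖ * (2 * ‖l‖) ≤ 9 * c2 / ‖l‖ ^ 3 * (2 * ‖l‖) :=
    mul_le_mul_of_nonneg_right h (by positivity)
  have a3 : 9 * c2 / ‖l‖ ^ 3 * (2 * ‖l‖) = 18 * c2 / ‖l‖ * (1 / ‖l‖) := by
    field_simp; ring
  have a4 : 18 * c2 / ‖l‖ * (1 / ‖l‖) ≤ 18 * c2 / ‖l‖ * 1 := by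
    apply mul_le_mul_of_nonneg_left _ (by positivity)
    rw [div_le_one h0]; linarith
  have a5 : ‖t‖ / ‖l‖ ≤ 1 / ‖l‖ := div_le_div_of_nonneg_right ht h0.le
  have a6 : 18 * c2 / ‖l‖ * 1 + 1 / ‖l‖ ≤ Cc / ‖l‖ := by
    rw [mul_one, ← add_div]
    apply div_le_div_of_nonneg_right _ h0.le
    linarith
  linarith

lemma mem_Dom_of {l z : ℂ} (hl : l ∈ Om2 L0) (hz : ‖z‖ ≤ 3 / 4) : (l, z) ∈ Dom L0 :=
  ⟨hl, lt_of_le_of_lt hz (by norm_num)⟩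

lemma root_pos (hc : 1 ≤ c) (hL0 : 1 ≤ L0) {l : ℝ} (hl : L0 < l) (r : Fin 4) (z : ℂ)
    (hz : ‖z‖ ≤ 3 / 4) :
    |(T.EE (r, []) l z).re - (![0, l - 1, l, l + 1] : Fin 4 → ℝ) r| ≤ (8 + c) / l := by
  have hO : (l : ℂ) ∈ Om2 L0 := real_mem_Om2 (by linarith) hl
  have hl0 : 0 < l := by linarith
  have hn : ‖(l : ℂ)‖ = l := by rw [Complex.norm_real, Real.norm_eq_abs, abs_of_pos hl0]
  have hD := mem_Dom_of hO hz
  have gen : ∀ (E : ℂ) (a : ℝ), ‖E - a‖ ≤ (8 + c) / l → |E.re - a| ≤ (8 + c) / l := by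
    intro E a h
    refine le_trans ?_ h
    have := Complex.abs_re_le_norm (E - a)
    simpa using this
  have h8 : 8 / l ≤ (8 + c) / l := div_le_div_of_nonneg_right (by linarith) hl0.le
  have gen2 : ∀ (ζ : ℂ) (a b : ℝ), ‖ζ - (a : ℂ)‖ ≤ 4 / ‖(l : ℂ)‖ → b = l + 2 * a →
      ‖((l : ℂ) + 2 * ζ) - b‖ ≤ (8 + c) / l := by
    intro ζ a b h hb
    have e : ((l : ℂ) + 2 * ζ) - b = 2 * (ζ - (a : ℂ)) := by
      rw [hb]; push_cast; ring
    rw [e, norm_mul]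
    have a1 : ‖(2 : ℂ)‖ = 2 := by norm_num
    rw [a1]
    rw [hn] at h
    refine le_trans ?_ h8
    have : (8 : ℝ) / l = 2 * (4 / l) := by ring
    rw [this]
    linarith
  fin_cases r
  · apply gen
    show ‖T.EE (0, []) l z - ((0 : ℝ) : ℂ)‖ ≤ _
    have h := (T.r0 l z hD).2
    rw [Complex.ofReal_zero, sub_zero]
    have e : T.EE (0, []) l z = (T.EE (0, []) l z + 2 * (z + 1) / l) - 2 * (z + 1) / l := by ring
    rw [e]
    refine (norm_sub_le _ _).trans ?_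
    have a1 : ‖2 * (z + 1) / (l : ℂ)‖ ≤ 8 / l := by
      rw [norm_div, norm_mul, hn]
      apply div_le_div_of_nonneg_right _ hl0.le
      have a2 : ‖(2 : ℂ)‖ = 2 := by norm_num
      rw [a2]
      have a3 : ‖z + 1‖ ≤ ‖z‖ + 1 := by
        refine (norm_add_le _ _).trans ?_
        rw [norm_one]
      linarith
    have a4 : c / ‖(l : ℂ)‖ ^ 2 ≤ c / l := by
      rw [hn]
      apply div_le_div_of_nonneg_left (by linarith) hl0
      nlinarith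
    have a5 : (8 + c) / l = 8 / l + c / l := by ring
    rw [a5]
    linarith
  · apply gen
    show ‖T.EE (1, []) l z - ((l - 1 : ℝ) : ℂ)‖ ≤ _
    rw [T.r1E]
    apply gen2 _ (-1 / 2) _ _ (by ring)
    have := T.r1.z2 l z hD
    have e : (((-1 / 2 : ℝ)) : ℂ) = ((-1 : ℝ) : ℂ) / 2 := by push_cast; ring
    rw [e]; exact this
  · apply gen
    show ‖T.EE (2, []) l z - ((l : ℝ) : ℂ)‖ ≤ _
    rw [T.r2E]
    apply gen2 _ 0 _ _ (by ring)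
    have := T.r2.z2 l z hD
    rw [Complex.ofReal_zero, sub_zero]; exact this
  · apply gen
    show ‖T.EE (3, []) l z - ((l + 1 : ℝ) : ℂ)‖ ≤ _
    rw [T.r3E]
    apply gen2 _ (1 / 2) _ _ (by ring)
    have := T.r3.z2 l z hD
    have e : (((1 / 2 : ℝ)) : ℂ) = ((1 : ℝ) : ℂ) / 2 := by push_cast; ring
    rw [e]; exact this

/-- the structure of `IsKD` at one real coupling -/
lemma kd_real {c2 Cc : ℝ} (hF : Fm c2 L0 c c' T U) (hB : 1 ≤ c2) (hL : 100 * c2 ≤ L0)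
    (hC : 100 * c2 ≤ Cc) {l : ℝ} (hl : L0 < l) (h5 : Re5 T l) (h7 : Re7 U l) :
    IsKD (1 / (2 * l)) Cc (Cs l) (fun w : Wd => (LO U w l).re) (fun w : Wd => (HI U w l).re) ty ch := by
  have hL0 : 0 ≤ L0 := by linarith
  have hl0 : 0 < l := lt_of_le_of_lt hL0 hl
  have hO : (l : ℂ) ∈ Om2 L0 := real_mem_Om2 hL0 hl
  have hn : ‖(l : ℂ)‖ = l := by rw [Complex.norm_real, Real.norm_eq_abs, abs_of_pos hl0]
  have hl100 : 100 * c2 ≤ l := by linarith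
  have hlen : ∀ w : Wd, 0 < (HI U w l).re - (LO U w l).re := fun w => by
    have := (h7.facts w).2.2.1
    linarith
  have hcub : 9 * c2 / l ^ 3 ≤ Cc * (1 / (2 * l)) ^ 3 := by
    have : Cc * (1 / (2 * l)) ^ 3 = Cc / 8 / l ^ 3 := by field_simp; ring
    rw [this]
    apply div_le_div_of_nonneg_right _ (by positivity)
    linarith
  have r0 : ∀ w : Wd, |((HI U (ch 0 w) l).re - (LO U (ch 0 w) l).re) -
      1 / (2 * l) * (1 + ty w / l) * ((HI U w l).re - (LO U w l).re)| ≤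
      9 * c2 / l ^ 3 * ((HI U w l).re - (LO U w l).re) := fun w => by
    apply real_ratio hl0 h7 _ (ratio0 U hF hB hL w hO)
    push_cast; ring
  have r2 : ∀ w : Wd, |((HI U (ch 2 w) l).re - (LO U (ch 2 w) l).re) -
      1 / (2 * l) * (1 - ty w / l) * ((HI U w l).re - (LO U w l).re)| ≤
      9 * c2 / l ^ 3 * ((HI U w l).re - (LO U w l).re) := fun w => by
    apply real_ratio hl0 h7 _ (ratio2 U hF hB hL w hO)
    push_cast; ring
  have r1 : ∀ w : Wd, |((HI U (ch 1 w) l).re - (LO U (ch 1 w) l).re) -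
      1 / l ^ 2 * ((HI U w l).re - (LO U w l).re)| ≤
      9 * c2 / l ^ 3 * ((HI U w l).re - (LO U w l).re) := fun w => by
    apply real_ratio hl0 h7 _ (ratio1 U hF hB hL w hO)
    push_cast; ring
  have tb : ∀ w : Wd, -1 ≤ ty w ∧ ty w ≤ 1 := fun w => by
    rcases ty_cases w with h | h | h <;> rw [h] <;> norm_num
  have hsmall : 9 * c2 / l ^ 3 ≤ 1 / 4 := by
    rw [div_le_div_iff₀ (by positivity) (by norm_num)]
    have h1 : 1 ≤ l := by linarith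
    have h2 : l ≤ l ^ 3 := by nlinarith [sq_nonneg l, mul_self_nonneg (l - 1)]
    linarith
  have hsh : ∀ (w : Wd) (i : Fin 3), (HI U (ch i w) l).re - (LO U (ch i w) l).re ≤
      1 / 2 * ((HI U w l).re - (LO U w l).re) := by
    intro w i
    have hw := hlen w
    obtain ⟨t1, t2⟩ := tb w
    have h1 : (1 : ℝ) ≤ l := by linarith
    have hil : 1 / (2 * l) ≤ 1 / 8 := one_div_le_one_div_of_le (by norm_num) (by linarith)
    have hip : 0 < 1 / (2 * l) := by positivity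
    have ht : -1 ≤ ty w / l ∧ ty w / l ≤ 1 := by
      constructor
      · rw [le_div_iff₀ hl0]; linarith
      · rw [div_le_one hl0]; linarith
    fin_cases i
    · have h := (abs_le.mp (r0 w)).2
      show (HI U (ch 0 w) l).re - (LO U (ch 0 w) l).re ≤ _
      have h2 : 1 / (2 * l) * (1 + ty w / l) ≤ 1 / 4 := by nlinarith
      nlinarith
    · have h := (abs_le.mp (r1 w)).2
      show (HI U (ch 1 w) l).re - (LO U (ch 1 w) l).re ≤ _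
      have h2 : 1 / l ^ 2 ≤ 1 / 4 := by
        apply one_div_le_one_div_of_le (by norm_num)
        nlinarith
      nlinarith
    · have h := (abs_le.mp (r2 w)).2
      show (HI U (ch 2 w) l).re - (LO U (ch 2 w) l).re ≤ _
      have h2 : 1 / (2 * l) * (1 - ty w / l) ≤ 1 / 4 := by nlinarith
      nlinarith
  refine ⟨fun w => (h7.facts w).2.2.1, ty_cases, fun i w => rfl, fun w => (h7.facts w).2.2.2.1,
    fun w => (h7.facts w).2.2.2.2.1, fun w => ?_, fun w => ?_, fun w => ?_, fun w => ?_, fun w => ?_,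
    fun w => ?_, fun x hx w h1 h2 => cover hL0 hl h5 h7 w x hx h1 h2,
    fun x hx δ hδ => fine hL0 hl h5 h7 hsh x hx δ hδ⟩
  · show (LO U (ch 0 w) l).re = (LO U w l).re
    rw [LO_ch0 U w hO]
  · show (HI U (ch 2 w) l).re = (HI U w l).re
    rw [HI_ch2 U w hO]
  · show |((HI U (ch 0 w) l).re - (LO U (ch 0 w) l).re) - 1 / (2 * l) * (1 + 2 * (1 / (2 * l)) * ty w) *
      ((HI U w l).re - (LO U w l).re)| ≤ Cc * (1 / (2 * l)) ^ 3 * ((HI U w l).re - (LO U w l).re)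
    have e : 1 / (2 * l) * (1 + 2 * (1 / (2 * l)) * ty w) = 1 / (2 * l) * (1 + ty w / l) := by
      field_simp
    rw [e]
    exact (r0 w).trans (mul_le_mul_of_nonneg_right hcub (hlen w).le)
  · show |((HI U (ch 2 w) l).re - (LO U (ch 2 w) l).re) - 1 / (2 * l) * (1 - 2 * (1 / (2 * l)) * ty w) *
      ((HI U w l).re - (LO U w l).re)| ≤ Cc * (1 / (2 * l)) ^ 3 * ((HI U w l).re - (LO U w l).re)
    have e : 1 / (2 * l) * (1 - 2 * (1 / (2 * l)) * ty w) = 1 / (2 * l) * (1 - ty w / l) := by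
      field_simp
    rw [e]
    exact (r2 w).trans (mul_le_mul_of_nonneg_right hcub (hlen w).le)
  · show |((HI U (ch 1 w) l).re - (LO U (ch 1 w) l).re) - 4 * (1 / (2 * l)) ^ 2 *
      ((HI U w l).re - (LO U w l).re)| ≤ Cc * (1 / (2 * l)) ^ 3 * ((HI U w l).re - (LO U w l).re)
    have e : 4 * (1 / (2 * l)) ^ 2 = 1 / l ^ 2 := by
      field_simp; ring
    rw [e]
    exact (r1 w).trans (mul_le_mul_of_nonneg_right hcub (hlen w).le)
  · show |((HI U (ch 1 w) l).re + (LO U (ch 1 w) l).re) / 2 - ((HI U w l).re + (LO U w l).re) / 2 -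
      3 / 4 * ty w * (1 / (2 * l)) * ((HI U w l).re - (LO U w l).re)| ≤
      Cc * (1 / (2 * l)) ^ 2 * ((HI U w l).re - (LO U w l).re)
    have h := centre U hF hB hL w hO
    obtain ⟨a1, a2, a3, -⟩ := h7.facts w
    obtain ⟨b1, b2, b3, -⟩ := h7.facts (ch 1 w)
    rw [a1, a2, b1, b2, hn] at h
    have hw := hlen w
    generalize (HI U w l).re = hi at *
    generalize (LO U w l).re = lo at *
    generalize (HI U (ch 1 w) l).re = hi' at *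
    generalize (LO U (ch 1 w) l).re = lo' at *
    have e : (((hi' : ℂ) + lo') / 2 - ((hi : ℂ) + lo) / 2 - 3 / 4 * (ty w : ℂ) * (1 / (2 * (l : ℂ))) *
        ((hi : ℂ) - lo)) = (((hi' + lo') / 2 - (hi + lo) / 2 - 3 / 4 * ty w * (1 / (2 * l)) * (hi - lo) : ℝ) : ℂ) := by
      push_cast; ring
    rw [e, Complex.norm_real, Real.norm_eq_abs] at h
    have e2 : ((hi : ℂ) - lo) = ((hi - lo : ℝ) : ℂ) := by push_cast; ring
    rw [e2, Complex.norm_real, Real.norm_eq_abs, abs_of_pos hw] at h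
    refine h.trans (mul_le_mul_of_nonneg_right ?_ hw.le)
    have e3 : Cc * (1 / (2 * l)) ^ 2 = Cc / 4 / l ^ 2 := by field_simp; ring
    rw [e3]
    apply div_le_div_of_nonneg_right _ (by positivity)
    linarith

/-- assembly of block K -/
theorem K9 (h4 : ST_K4) (h5 : ST_K5) (h6 : ST_K6) (h7 : ST_K7) (h8 : ST_K8) : ST_K9 := by
  obtain ⟨c, L4, hc, hL4, H4⟩ := h4
  obtain ⟨L5, hL5, H5⟩ := h5 c hc
  obtain ⟨c', L6, hc', hL6, H6⟩ := h6 c hc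
  obtain ⟨L7, hL7, H7⟩ := h7 c c' hc hc'
  obtain ⟨c2, L8, hc2, hL8, H8⟩ := h8 c c' hc hc'
  obtain ⟨L0, hL0⟩ : ∃ L0 : ℝ, L0 = L4 + L5 + L6 + L7 + L8 + 100 * c2 := ⟨_, rfl⟩
  have hL1 : 1 ≤ L0 := by linarith
  have hLc : 100 * c2 ≤ L0 := by linarith
  obtain ⟨T⟩ := H4 L0 (by linarith)
  obtain ⟨U⟩ := H6 L0 (by linarith) T
  have hF : Fm c2 L0 c c' T U := H8 L0 (by linarith) T U
  have hR5 : ∀ l : ℝ, L0 < l → Re5 T l := fun l hl x hx => H5 L0 (by linarith) T l hl x hx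
  have hR7 : ∀ l : ℝ, L0 < l → Re7 U l := fun l hl w => H7 L0 (by linarith) T U l hl w
  refine ⟨100 * c2 + c + 8, L0, by linarith, hL1, ⟨{
    lo := LO U
    hi := HI U
    an_l := an_LO U
    an_h := an_HI U
    ne := fun w l hl => sub_ne_zero.mp (D_ne U hF hc2 hLc w hl).2
    rL := fun w l hl => ?_
    rR := fun w l hl => ?_
    re_l := fun w l hl => ?_
    re_h := fun w l hl => ?_
    kd := fun l hl => kd_real hF hc2 hLc (by linarith) hl (hR5 l hl) (hR7 l hl)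
    rts := fun l hl r => ?_
    cov := fun l hl x hx => cover_root (hR5 l hl) (hR7 l hl) x hx }⟩⟩
  · exact ratio_fin hc2 (by linarith) (hLc.trans hl.1.le) (ty_abs w) (ratio0 U hF hc2 hLc w hl)
  · refine ratio_fin (t := -(ty w : ℂ)) hc2 (by linarith) (hLc.trans hl.1.le) ?_ ?_
    · rw [norm_neg]; exact ty_abs w
    · have e : (1 + -(ty w : ℂ) / l) = 1 - ty w / l := by ring
      rw [e]
      exact ratio2 U hF hc2 hLc w hl
  · rw [((hR7 l hl).facts w).1]; exact Complex.ofReal_im _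
  · rw [((hR7 l hl).facts w).2.1]; exact Complex.ofReal_im _
  · have hO : (l : ℂ) ∈ Om2 L0 := real_mem_Om2 (by linarith) hl
    have hl0 : 0 < l := by linarith
    have hle : (8 + c) / l ≤ (100 * c2 + c + 8) / l := div_le_div_of_nonneg_right (by linarith) hl0.le
    exact ⟨(root_pos hc hL1 hl r _ (U.nl (r, []) l hO)).trans hle,
      (root_pos hc hL1 hl r _ (U.nh (r, []) l hO)).trans hle⟩

end

end Pool.Agent.Helper96.CV
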