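import Pool.Agent.Helper36.CV.StmtsT

set_option autoImplicit false

namespace Pool.Agent.Helper36.CV

open Complex

theorem t3_clamp (x : ℝ) : -1 ≤ clamp x ∧ clamp x ≤ 1 := by
  unfold clamp
  refine ⟨le_max_left _ _, max_le (by norm_num) (min_le_left _ _)⟩

theorem t3_clamp_ell {x : ℝ} (h : |x| < 1) : clamp x = x := by
  rw [abs_lt] at h
  unfold clamp
  rw [min_eq_right h.2.le, max_eq_right h.1.le]

theorem t3_clamp_pos {x : ℝ} (h : 1 ≤ x) : clamp x = 1 := by
  unfold clamp
  rw [min_eq_left h, max_eq_right (by norm_num)]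

theorem t3_clamp_neg {x : ℝ} (h : x ≤ -1) : clamp x = -1 := by
  unfold clamp
  rw [min_eq_right (by linarith), max_eq_left h]

theorem t3_re (A : Matrix (Fin 2) (Fin 2) ℝ) : (ph A).re = clamp (hx A) := by
  simp [ph]

theorem t3_im (A : Matrix (Fin 2) (Fin 2) ℝ) :
    (ph A).im = ((SignType.sign (A 1 0) : SignType) : ℝ) * Real.sqrt (1 - clamp (hx A) ^ 2) := by
  simp [ph]

theorem t3_hyp {A : Matrix (Fin 2) (Fin 2) ℝ} (h : 1 ≤ |hx A|) :
    (ph A).im = 0 ∧ (ph A).re = ((SignType.sign (hx A) : SignType) : ℝ) := by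
  rw [t3_re, t3_im]
  rcases le_abs.mp h with h1 | h1
  · rw [t3_clamp_pos h1, sign_pos (show (0 : ℝ) < hx A by linarith)]
    simp
  · have h2 : hx A ≤ -1 := by linarith
    rw [t3_clamp_neg h2, sign_neg (show hx A < (0 : ℝ) by linarith)]
    simp

theorem t3_A10 {A : Matrix (Fin 2) (Fin 2) ℝ} (hA : A.det = 1) (h : |hx A| < 1) : A 1 0 ≠ 0 := by
  intro h0
  rw [Matrix.det_fin_two, h0] at hA
  simp only [mul_zero, sub_zero] at hA
  have ht : hx A = (A 0 0 + A 1 1) / 2 := by
    unfold hx
    rw [Matrix.trace_fin_two]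
  rw [ht, abs_lt] at h
  nlinarith [sq_nonneg (A 0 0 - A 1 1), h.1, h.2]

theorem t3_ell {A : Matrix (Fin 2) (Fin 2) ℝ} (hA : A.det = 1) (h : |hx A| < 1) :
    (ph A).re = hx A ∧ (ph A).im ^ 2 = 1 - hx A ^ 2 ∧ 0 < (ph A).im * A 1 0 ∧ 0 < (ph A).im ^ 2 := by
  have h10 := t3_A10 hA h
  have hlt : hx A ^ 2 < 1 := by
    rw [abs_lt] at h
    nlinarith [h.1, h.2]
  have hs : 0 < Real.sqrt (1 - hx A ^ 2) := Real.sqrt_pos.mpr (by linarith)
  have hs2 : Real.sqrt (1 - hx A ^ 2) ^ 2 = 1 - hx A ^ 2 := Real.sq_sqrt (by linarith)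
  rw [t3_re, t3_im, t3_clamp_ell h]
  rcases lt_or_gt_of_ne h10 with h1 | h1
  · rw [sign_neg h1]
    simp only [SignType.coe_neg, SignType.coe_one, neg_mul, one_mul]
    refine ⟨trivial, by rw [neg_sq, hs2], ?_, by rw [neg_sq]; positivity⟩
    nlinarith
  · rw [sign_pos h1]
    simp only [SignType.coe_one, one_mul]
    exact ⟨trivial, hs2, by positivity, by positivity⟩

theorem t3_norm (A : Matrix (Fin 2) (Fin 2) ℝ) (hA : A.det = 1) :
    (ph A).re ^ 2 + (ph A).im ^ 2 = 1 := by
  by_cases h : |hx A| < 1
  · obtain ⟨h1, h2, -, -⟩ := t3_ell hA h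
    rw [h1, h2]; ring
  · push Not at h
    obtain ⟨h1, h2⟩ := t3_hyp h
    rw [h1, t3_re]
    rcases le_abs.mp h with h3 | h3
    · rw [t3_clamp_pos h3]; norm_num
    · rw [t3_clamp_neg (by linarith)]; norm_num

/-- trigonometric fact -/
theorem t3_trig {z p c q : ℝ} (h1 : z ^ 2 + c ^ 2 = 1) (h2 : p ^ 2 + q ^ 2 = 1) (h : 0 ≤ c * q) :
    1 - |z - p| ≤ z * p + c * q := by
  by_contra hcon
  push Not at hcon
  have h3 : 0 < 1 - z * p - |z - p| := by linarith
  have h4 : (c * q) ^ 2 = (1 - z * p) ^ 2 - (z - p) ^ 2 := by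
    have e1 : c ^ 2 = 1 - z ^ 2 := by linarith
    have e2 : q ^ 2 = 1 - p ^ 2 := by linarith
    rw [mul_pow, e1, e2]; ring
  have h5 : |z - p| ^ 2 = (z - p) ^ 2 := sq_abs _
  have h6 : 0 ≤ |z - p| := abs_nonneg _
  have h7 : (1 - z * p - |z - p|) ^ 2 ≤ (c * q) ^ 2 := by
    rw [h4, ← h5]
    nlinarith
  have h8 : 1 - z * p - |z - p| ≤ c * q := by
    nlinarith
  linarith

theorem t3_hx_mul_self (A B : Matrix (Fin 2) (Fin 2) ℝ) (hA : A.det = 1) :
    hx (A * (A * B)) = 2 * hx A * hx (A * B) - hx B := by
  rw [Matrix.det_fin_two] at hA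
  simp only [hx, Matrix.trace_fin_two, Matrix.mul_apply, Fin.sum_univ_two]
  linear_combination (-(B 0 0 + B 1 1) / 2) * hA

theorem t3_hx_mul_self' (A B : Matrix (Fin 2) (Fin 2) ℝ) (hB : B.det = 1) :
    hx ((A * B) * B) = 2 * hx B * hx (A * B) - hx A := by
  rw [Matrix.det_fin_two] at hB
  simp only [hx, Matrix.trace_fin_two, Matrix.mul_apply, Fin.sum_univ_two]
  linear_combination (-(A 0 0 + A 1 1) / 2) * hB

theorem t3_det_mul {A B : Matrix (Fin 2) (Fin 2) ℝ} (hA : A.det = 1) (hB : B.det = 1) :
    (A * B).det = 1 := by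
  rw [Matrix.det_mul, hA, hB, mul_one]

/-- sign of the product of imaginary parts of two elliptic elements -/
theorem t3_sign (h2 : ST_T2) {A B : Matrix (Fin 2) (Fin 2) ℝ} (hA : A.det = 1) (hB : B.det = 1)
    (hxA : |hx A| < 1) (hxB : |hx B| < 1) :
    (0 < (ph A).im * (ph B).im ↔ 0 < hx A * hx B - hx (A * B)) ∧
    ((ph A).im * (ph B).im < 0 ↔ hx A * hx B - hx (A * B) < 0) := by
  obtain ⟨e1, e2⟩ := h2 A B hA hB hxA hxB
  obtain ⟨-, -, a1, a2⟩ := t3_ell hA hxA
  obtain ⟨-, -, b1, b2⟩ := t3_ell hB hxB
  have key : 0 < ((ph A).im * (ph B).im) * (A 1 0 * B 1 0) := by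
    have := mul_pos a1 b1
    nlinarith
  have h1 : 0 < (ph A).im * (ph B).im ↔ 0 < A 1 0 * B 1 0 := by
    constructor
    · intro h
      exact (pos_iff_pos_of_mul_pos key).1 h
    · intro h
      exact (pos_iff_pos_of_mul_pos key).2 h
  have h1' : (ph A).im * (ph B).im < 0 ↔ A 1 0 * B 1 0 < 0 :=
    neg_iff_neg_of_mul_pos key
  rw [h1, h1', e1, e2]
  constructor
  · constructor <;> intro h <;> linarith
  · constructor <;> intro h <;> linarith

theorem t3_sign_nonneg (h2 : ST_T2) {A B : Matrix (Fin 2) (Fin 2) ℝ} (hA : A.det = 1)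
    (hB : B.det = 1) (hxA : |hx A| < 1) (hxB : |hx B| < 1) :
    0 ≤ ((ph A).im * (ph B).im) * (hx A * hx B - hx (A * B)) := by
  obtain ⟨e1, e2⟩ := t3_sign h2 hA hB hxA hxB
  rcases lt_trichotomy ((ph A).im * (ph B).im) 0 with h | h | h
  · have := e2.1 h
    nlinarith
  · rw [h]; simp
  · have := e1.1 h
    positivity

theorem st_T3 (h2 : ST_T2) (h4 : ST_T4) : ST_T3 := by
  intro A B hA hB hf0 hf1
  obtain ⟨h4a, -⟩ := h4 A B hA hB hf0 hf1
  have hC := t3_det_mul hA hB
  set a := (ph A).im with ha
  set b := (ph B).im with hb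
  set c := (ph (A * B)).im with hc
  set x := (ph A).re with hx'
  set y := (ph B).re with hy'
  set z := (ph (A * B)).re with hz'
  have nA := t3_norm A hA
  have nB := t3_norm B hB
  have nC := t3_norm _ hC
  rw [← ha, ← hx'] at nA
  rw [← hb, ← hy'] at nB
  rw [← hc, ← hz'] at nC
  have hre : (ph A * ph B).re = x * y - a * b := by rw [Complex.mul_re]
  have him : (ph A * ph B).im = x * b + a * y := by rw [Complex.mul_im]
  have hgoal : (ph (A * B) * (starRingEnd ℂ) (ph A * ph B)).re =
      z * (x * y - a * b) + c * (x * b + a * y) := by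
    rw [Complex.mul_re, Complex.conj_re, Complex.conj_im, hre, him]
    ring
  rw [hgoal]
  rw [hre] at h4a
  have hpq : (x * y - a * b) ^ 2 + (x * b + a * y) ^ 2 = 1 := by
    have : (x * y - a * b) ^ 2 + (x * b + a * y) ^ 2 = (x ^ 2 + a ^ 2) * (y ^ 2 + b ^ 2) := by ring
    rw [this, nA, nB, one_mul]
  have hcq : 0 ≤ c * (x * b + a * y) := by
    by_cases hCe : |hx (A * B)| < 1
    · obtain ⟨z1, z2, z3, z4⟩ := t3_ell hC hCe
      have hsA : |hx A| < 1 → 0 ≤ (a * c) * (hx B - hx A * hx (A * B)) := by
        intro hAe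
        have := t3_sign_nonneg h2 hA hC hAe hCe
        rw [t3_hx_mul_self A B hA] at this
        have e : hx A * hx (A * B) - (2 * hx A * hx (A * B) - hx B) =
          hx B - hx A * hx (A * B) := by ring
        rw [e] at this
        exact this
      have hsB : |hx B| < 1 → 0 ≤ (c * b) * (hx A - hx B * hx (A * B)) := by
        intro hBe
        have := t3_sign_nonneg h2 hC hB hCe hBe
        rw [t3_hx_mul_self' A B hB] at this
        have e : hx (A * B) * hx B - (2 * hx B * hx (A * B) - hx A) =
          hx A - hx B * hx (A * B) := by ring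
        rw [e] at this
        exact this
      by_cases hAe : |hx A| < 1
      · obtain ⟨x1, x2, x3, x4⟩ := t3_ell hA hAe
        by_cases hBe : |hx B| < 1
        · obtain ⟨y1, y2, y3, y4⟩ := t3_ell hB hBe
          -- all elliptic
          have s1 := hsA hAe
          have s2 := hsB hBe
          obtain ⟨e1, e2⟩ := t3_sign h2 hA hB hAe hBe
          rw [← hx'] at x1
          rw [← hy'] at y1
          rw [← hz'] at z1
          rw [← x1, ← y1, ← z1] at s1 s2 e1 e2
          rw [← ha, ← x1] at x2
          rw [← ha] at x4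
          rw [← hb, ← y1] at y2
          rw [← hb] at y4
          have hane : a ≠ 0 := by
            intro h0
            rw [h0] at x4
            simp at x4
          have hbne : b ≠ 0 := by
            intro h0
            rw [h0] at y4
            simp at y4
          have hab : a * b ≠ 0 := mul_ne_zero hane hbne
          set h := (x * y - z) / (a * b) with hh
          have hh1 : 0 < h := by
            rcases lt_or_gt_of_ne hab with h5 | h5
            · exact div_pos_of_neg_of_neg (e2.1 h5) h5
            · exact div_pos (e1.1 h5) h5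
          have hh2 : x * y - z = h * (a * b) := by
            rw [hh]; field_simp
          have t1 : 0 ≤ c * (y * a + x * b * h) := by
            have e3 : (a * c) * (y - x * z) = a ^ 2 * (c * (y * a + x * b * h)) := by
              have : y - x * z = y * a ^ 2 + x * (h * (a * b)) := by
                rw [← hh2, x2]; ring
              rw [this]; ring
            rw [e3] at s1
            exact nonneg_of_mul_nonneg_right s1 x4
          have t2 : 0 ≤ c * (x * b + y * a * h) := by
            have e3 : (c * b) * (x - y * z) = b ^ 2 * (c * (x * b + y * a * h)) := by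
              have : x - y * z = x * b ^ 2 + y * (h * (a * b)) := by
                rw [← hh2, y2]; ring
              rw [this]; ring
            rw [e3] at s2
            exact nonneg_of_mul_nonneg_right s2 y4
          have t3 : 0 ≤ (1 + h) * (c * (x * b + a * y)) := by
            have : (1 + h) * (c * (x * b + a * y)) =
              c * (y * a + x * b * h) + c * (x * b + y * a * h) := by ring
            rw [this]; linarith
          exact nonneg_of_mul_nonneg_right t3 (by linarith)
        · -- B hyperbolic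
          push Not at hBe
          obtain ⟨b0, b1⟩ := t3_hyp hBe
          rw [← hb] at b0
          rw [b0, mul_zero, zero_add]
          have s1 := hsA hAe
          have hlt : |hx A * hx (A * B)| < 1 := by
            rw [abs_mul]
            nlinarith [abs_nonneg (hx A), abs_nonneg (hx (A * B))]
          rw [abs_lt] at hlt
          rcases le_abs.mp hBe with h5 | h5
          · rw [hy', t3_re, t3_clamp_pos h5]
            have : 0 ≤ a * c := nonneg_of_mul_nonneg_left s1 (by linarith)
            linarith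
          · rw [hy', t3_re, t3_clamp_neg (by linarith)]
            have : a * c ≤ 0 := by
              by_contra hcon
              push Not at hcon
              nlinarith
            linarith
      · push Not at hAe
        obtain ⟨a0, a1⟩ := t3_hyp hAe
        rw [← ha] at a0
        rw [a0, zero_mul, add_zero]
        by_cases hBe : |hx B| < 1
        · have s2 := hsB hBe
          have hlt : |hx B * hx (A * B)| < 1 := by
            rw [abs_mul]
            nlinarith [abs_nonneg (hx B), abs_nonneg (hx (A * B))]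
          rw [abs_lt] at hlt
          rcases le_abs.mp hAe with h5 | h5
          · rw [hx', t3_re, t3_clamp_pos h5]
            have : 0 ≤ c * b := nonneg_of_mul_nonneg_left s2 (by linarith)
            linarith
          · rw [hx', t3_re, t3_clamp_neg (by linarith)]
            have : c * b ≤ 0 := by
              by_contra hcon
              push Not at hcon
              nlinarith
            linarith
        · push Not at hBe
          obtain ⟨b0, b1⟩ := t3_hyp hBe
          rw [← hb] at b0
          rw [b0, mul_zero, mul_zero]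
    · push Not at hCe
      obtain ⟨c0, -⟩ := t3_hyp hCe
      rw [← hc] at c0
      rw [c0, zero_mul]
  have := t3_trig nC hpq hcq
  linarith

end Pool.Agent.Helper36.CV
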